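import Mathlib

/-!
The Asanov-Velichko theorem: pointwise limits of bounded sets of continuous functions on a
countably compact space are continuous.
-/

open Set Topology Filter

namespace Pool.Agent.H855R2

/-- a real continuous function on a countably compact space is bounded -/
theorem bounded_of_countablyCompact {T : Type*} [TopologicalSpace T] [CountablyCompactSpace T]
    (f : T → ℝ) (hf : Continuous f) : ∃ C : ℝ, ∀ x, |f x| ≤ C := by
  have h1 : IsCountablyCompact (range f) := by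
    rw [← image_univ]
    exact CountablyCompactSpace.isCountablyCompact_univ.image hf
  have h2 : IsCompact (range f) := h1.isCompact
  obtain ⟨C, hC⟩ := h2.isBounded.exists_norm_le
  exact ⟨C, fun x => hC _ (mem_range_self x)⟩

theorem mapCluster_mem_closed {T : Type*} [TopologicalSpace T] {y : ℕ → T} {y0 : T}
    (h : MapClusterPt y0 atTop y) {C : Set T} (hC : IsClosed C) {N : ℕ} (hy : ∀ n, N ≤ n → y n ∈ C) :
    y0 ∈ C := by
  by_contra hy0
  have h1 := h.frequently (hC.isOpen_compl.mem_nhds hy0)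
  obtain ⟨n, hn, hnC⟩ := frequently_atTop.1 h1 N
  exact hnC (hy n hn)

/-- **Asanov-Velichko theorem**. -/
theorem av {W T : Type*} [TopologicalSpace W] [TopologicalSpace T] [CountablyCompactSpace T]
    (ev : W → T → ℝ) (h1 : ∀ w, Continuous (ev w)) (h2 : ∀ t, Continuous fun w => ev w t)
    (A : Set W) (hA : ∀ f : W → ℝ, Continuous f → ∃ C : ℝ, ∀ x ∈ A, |f x| ≤ C)
    (g : T → ℝ) (hg : g ∈ closure (ev '' A)) : Continuous g := by
  classical
  rw [continuous_iff_continuousAt]
  intro z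
  by_contra hz
  obtain ⟨ε, hε, hzε⟩ : ∃ ε > 0, ∀ U ∈ 𝓝 z, ∃ y ∈ U, 5 * ε ≤ |g y - g z| := by
    by_contra hcon
    push Not at hcon
    apply hz
    rw [ContinuousAt, Metric.tendsto_nhds]
    intro ε hε
    obtain ⟨U, hU, hUy⟩ := hcon (ε / 5) (by positivity)
    filter_upwards [hU] with y hy
    rw [Real.dist_eq]
    have := hUy y hy
    linarith
  have happ : ∀ F : Finset T, ∃ w ∈ A, ∀ t ∈ F, |ev w t - g t| < ε := by
    intro F
    have hU : {φ : T → ℝ | ∀ t ∈ F, |φ t - g t| < ε} ∈ 𝓝 g := by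
      have : {φ : T → ℝ | ∀ t ∈ F, |φ t - g t| < ε} = ⋂ t ∈ F, {φ | |φ t - g t| < ε} := by
        ext; simp
      rw [this, Filter.biInter_finset_mem]
      intro t _
      refine (isOpen_lt (((continuous_apply t).sub continuous_const).abs)
        continuous_const).mem_nhds ?_
      simp [hε]
    obtain ⟨_, hφ, w, hw, rfl⟩ := mem_closure_iff_nhds.1 hg _ hU
    exact ⟨w, hw, hφ⟩
  -- the sequence
  obtain ⟨s, hs1, hs2⟩ := exists_seq_of_forall_finset_exists
    (fun p : W × T => p.1 ∈ A ∧ |ev p.1 z - g z| < ε ∧ |ev p.1 p.2 - ev p.1 z| < ε ∧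
      5 * ε ≤ |g p.2 - g z|)
    (fun p q : W × T => |ev q.1 p.2 - g p.2| < ε ∧ |ev p.1 q.2 - ev p.1 z| < ε) (by
      intro F _
      obtain ⟨w, hw, hwF⟩ := happ (insert z (F.image Prod.snd))
      have hU : {y : T | |ev w y - ev w z| < ε ∧ ∀ p ∈ F, |ev p.1 y - ev p.1 z| < ε} ∈ 𝓝 z := by
        have h3 : ∀ w : W, {y : T | |ev w y - ev w z| < ε} ∈ 𝓝 z := fun w =>
          (isOpen_lt (((h1 w).sub continuous_const).abs) continuous_const).mem_nhds (by simp [hε])
        have h4 : {y : T | ∀ p ∈ F, |ev p.1 y - ev p.1 z| < ε} =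
            ⋂ p ∈ F, {y | |ev p.1 y - ev p.1 z| < ε} := by
          ext; simp
        refine inter_mem (h3 w) ?_
        show {y : T | ∀ p ∈ F, |ev p.1 y - ev p.1 z| < ε} ∈ 𝓝 z
        rw [h4, Filter.biInter_finset_mem]
        exact fun p _ => h3 p.1
      obtain ⟨y, hy, hyg⟩ := hzε _ hU
      refine ⟨(w, y), ⟨hw, hwF z (Finset.mem_insert_self _ _), hy.1, hyg⟩, fun p hp => ?_⟩
      exact ⟨hwF p.2 (Finset.mem_insert_of_mem (Finset.mem_image_of_mem _ hp)), hy.2 p hp⟩)
  obtain ⟨y0, -, hy0⟩ := (CountablyCompactSpace.isCountablyCompact_univ (E := T)).seq_clusterPt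
    (fun n => (s n).2) (Eventually.of_forall fun n => mem_univ _)
  have hy0z : ∀ i, |ev (s i).1 y0 - ev (s i).1 z| ≤ ε := by
    intro i
    refine mapCluster_mem_closed (C := {y | |ev (s i).1 y - ev (s i).1 z| ≤ ε}) hy0
      (isClosed_le (((h1 _).sub continuous_const).abs) continuous_const) (N := i) ?_
    intro n hn
    rcases hn.eq_or_lt with rfl | hn
    · exact (hs1 i).2.2.1.le
    · exact (hs2 i n hn).2.le
  -- the metrizable image
  let R : W → Option ℕ → ℝ := fun w o => ev w (o.elim y0 fun i => (s i).2)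
  have hR : Continuous R := continuous_pi fun o => h2 _
  let _ : MetricSpace (Option ℕ → ℝ) := TopologicalSpace.metrizableSpaceMetric _
  let Q : Set ((Option ℕ → ℝ) × ℝ) := range fun n : ℕ => (R (s n).1, 1 / ((n : ℝ) + 1))
  have hQne : Q.Nonempty := range_nonempty _
  have hex : ∃ w : W, (R w, (0 : ℝ)) ∈ closure Q := by
    by_contra hcon
    push Not at hcon
    let θ : W → ℝ := fun w => Metric.infDist (R w, (0 : ℝ)) Q
    have hθc : Continuous θ := (Metric.continuous_infDist_pt Q).comp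
      (hR.prodMk continuous_const)
    have hθ0 : ∀ w, 0 < θ w := fun w => by
      refine lt_of_le_of_ne Metric.infDist_nonneg (Ne.symm fun h0 => hcon w ?_)
      exact (Metric.mem_closure_iff_infDist_zero hQne).2 h0
    obtain ⟨C, hC⟩ := hA (fun w => 1 / θ w) (continuous_const.div hθc fun w => (hθ0 w).ne')
    obtain ⟨n, hn⟩ := exists_nat_gt C
    have h3 := hC (s n).1 (hs1 n).1
    have h4 : θ (s n).1 ≤ 1 / ((n : ℝ) + 1) := by
      refine (Metric.infDist_le_dist_of_mem (mem_range_self n)).trans ?_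
      rw [Prod.dist_eq, dist_self, Real.dist_eq, zero_sub, abs_neg, abs_of_nonneg (by positivity)]
      exact max_le (by positivity) le_rfl
    have h5 : (n : ℝ) + 1 ≤ 1 / θ (s n).1 := by
      rw [le_div_iff₀ (hθ0 _)]
      have h6 : (0 : ℝ) < (n : ℝ) + 1 := by positivity
      rw [le_div_iff₀ h6] at h4
      linarith
    have h7 := (le_abs_self _).trans h3
    linarith
  obtain ⟨w, hw⟩ := hex
  -- approximation of `w` along the sequence
  have happ2 : ∀ (o p : Option ℕ) (N : ℕ), ∃ n ≥ N, |R (s n).1 o - R w o| < ε / 4 ∧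
      |R (s n).1 p - R w p| < ε / 4 := by
    intro o p N
    have hU : {q : (Option ℕ → ℝ) × ℝ | (|q.1 o - R w o| < ε / 4 ∧ |q.1 p - R w p| < ε / 4) ∧
        q.2 < 1 / ((N : ℝ) + 1)} ∈ 𝓝 (R w, (0 : ℝ)) := by
      have hc : ∀ o : Option ℕ, Continuous fun q : (Option ℕ → ℝ) × ℝ => |q.1 o - R w o| :=
        fun o => (((continuous_pi_iff.1 continuous_id o).comp continuous_fst).sub
          continuous_const).abs
      have e1 : ∀ o : Option ℕ, IsOpen {q : (Option ℕ → ℝ) × ℝ | |q.1 o - R w o| < ε / 4} :=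
        fun o => isOpen_lt (hc o) continuous_const
      have e2 : IsOpen {q : (Option ℕ → ℝ) × ℝ | q.2 < 1 / ((N : ℝ) + 1)} :=
        isOpen_lt continuous_snd continuous_const
      refine IsOpen.mem_nhds (((e1 o).inter (e1 p)).inter e2) ?_
      · refine ⟨⟨?_, ?_⟩, ?_⟩
        · simp [hε]
        · simp [hε]
        · show (0 : ℝ) < 1 / ((N : ℝ) + 1)
          positivity
    obtain ⟨_, ⟨hq1, hq2⟩, n, rfl⟩ := mem_closure_iff_nhds.1 hw _ hU
    refine ⟨n, ?_, hq1⟩
    by_contra hlt
    push Not at hlt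
    have h3 : (1 : ℝ) / ((n : ℝ) + 1) < 1 / ((N : ℝ) + 1) := hq2
    have h4 : (n : ℝ) + 1 ≤ (N : ℝ) + 1 := by
      have : (n : ℝ) ≤ N := by exact_mod_cast hlt.le
      linarith
    have h5 := one_div_le_one_div_of_le (by positivity) h4
    linarith
  have hwy0 : |ev w y0 - g z| ≤ 2 * ε + ε / 4 := by
    obtain ⟨n, -, hn, -⟩ := happ2 none none 0
    have e1 : |ev (s n).1 y0 - ev w y0| < ε / 4 := hn
    have e2 := hy0z n
    have e3 := (hs1 n).2.1
    rw [abs_lt] at e1 e3
    rw [abs_le] at e2 ⊢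
    constructor <;> linarith [e1.1, e1.2, e2.1, e2.2, e3.1, e3.2]
  have hwy : ∀ i, |ev w (s i).2 - g (s i).2| ≤ ε + ε / 4 := by
    intro i
    obtain ⟨n, hni, hn, -⟩ := happ2 (some i) (some i) (i + 1)
    have e1 : |ev (s n).1 (s i).2 - ev w (s i).2| < ε / 4 := hn
    have e2 := (hs2 i n (by omega)).1
    rw [abs_lt] at e1 e2
    rw [abs_le]
    constructor <;> linarith [e1.1, e1.2, e2.1, e2.2]
  have hfar : ∀ i, ε ≤ |ev w (s i).2 - ev w y0| := by
    intro i
    by_contra hlt
    push Not at hlt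
    have e1 := hwy i
    have e2 := hwy0
    have e3 := (hs1 i).2.2.2
    have e4 : |g (s i).2 - g z| < 5 * ε := by
      rw [abs_lt] at hlt ⊢
      rw [abs_le] at e1 e2
      constructor <;> linarith [e1.1, e1.2, e2.1, e2.2, hlt.1, hlt.2]
    linarith
  have hfin : ε ≤ |ev w y0 - ev w y0| := by
    refine mapCluster_mem_closed (C := {y | ε ≤ |ev w y - ev w y0|}) hy0
      (isClosed_le continuous_const (((h1 _).sub continuous_const).abs)) (N := 0) ?_
    exact fun n _ => hfar n
  simp at hfin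
  linarith

end Pool.Agent.H855R2
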