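import Mathlib
import Pool.Agent.Helper639.AL
import Pool.Agent.H855R2.AV

/-!
Countably compact sets of continuous functions over a space with a dense sigma-bounded subset.
-/

open Set Topology Filter

namespace Pool.Agent.H855R2

open Pool.Agent.Helper639.Ebl

/-- Fréchet-Urysohn property of spaces with an injective `c₀`-family. -/
theorem fu {P : Type} [TopologicalSpace P] [CompactSpace P] [T2Space P] {Γ : Type}
    (u : P → Γ → ℝ) (hu : C0 u) (hinj : Function.Injective u) (S : Set P) (p : P)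
    (hp : p ∈ closure S) : ∃ s : ℕ → P, (∀ n, s n ∈ S) ∧ Tendsto s atTop (𝓝 p) := by
  classical
  have huc : Continuous u := continuous_pi hu.cont
  have hemb : IsEmbedding u := (huc.isClosedEmbedding hinj).isEmbedding
  let G : P → ℕ → Finset Γ := fun q k => (hu.fin q (1 / ((k : ℝ) + 1)) (by positivity)).toFinset
  have hG : ∀ q γ, u q γ ≠ 0 → ∃ N, ∀ k ≥ N, γ ∈ G q k := by
    intro q γ hγ
    obtain ⟨N, hN⟩ := exists_nat_one_div_lt (abs_pos.mpr hγ)
    refine ⟨N, fun k hk => ?_⟩
    simp only [G, Set.Finite.mem_toFinset, mem_ofPred_eq]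
    have h1 : (1 : ℝ) / ((k : ℝ) + 1) ≤ 1 / ((N : ℝ) + 1) := by
      apply one_div_le_one_div_of_le (by positivity)
      have : (N : ℝ) ≤ k := by exact_mod_cast hk
      linarith
    linarith
  have happ : ∀ (F : Finset Γ) (k : ℕ), ∃ s ∈ S, ∀ γ ∈ F, |u s γ - u p γ| < 1 / ((k : ℝ) + 1) := by
    intro F k
    have hU : {q : P | ∀ γ ∈ F, |u q γ - u p γ| < 1 / ((k : ℝ) + 1)} ∈ 𝓝 p := by
      have : {q : P | ∀ γ ∈ F, |u q γ - u p γ| < 1 / ((k : ℝ) + 1)} =
          ⋂ γ ∈ F, {q | |u q γ - u p γ| < 1 / ((k : ℝ) + 1)} := by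
        ext; simp
      rw [this, Filter.biInter_finset_mem]
      intro γ _
      refine (isOpen_lt (((hu.cont γ).sub continuous_const).abs) continuous_const).mem_nhds ?_
      show |u p γ - u p γ| < 1 / ((k : ℝ) + 1)
      rw [sub_self, abs_zero]
      positivity
    obtain ⟨s, hs1, hs2⟩ := mem_closure_iff_nhds.1 hp _ hU
    exact ⟨s, hs2, hs1⟩
  obtain ⟨f, hf1, hf2⟩ := exists_seq_of_forall_finset_exists
    (fun a : ℕ × P => a.2 ∈ S ∧ ∀ γ ∈ G p a.1, |u a.2 γ - u p γ| < 1 / ((a.1 : ℝ) + 1))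
    (fun a b : ℕ × P => a.1 < b.1 ∧ ∀ γ ∈ G a.2 b.1, |u b.2 γ - u p γ| < 1 / ((b.1 : ℝ) + 1)) (by
      intro F _
      let k := F.sup Prod.fst + 1
      obtain ⟨s, hs, hsF⟩ := happ (G p k ∪ F.biUnion fun a => G a.2 k) k
      refine ⟨(k, s), ⟨hs, fun γ hγ => hsF γ (Finset.mem_union_left _ hγ)⟩, fun a ha => ⟨?_, ?_⟩⟩
      · exact Nat.lt_succ_of_le (Finset.le_sup (f := Prod.fst) ha)
      · exact fun γ hγ => hsF γ (Finset.mem_union_right _ (Finset.mem_biUnion.2 ⟨a, ha, hγ⟩)))
  have hk : ∀ n, n ≤ (f n).1 := by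
    intro n
    induction n with
    | zero => exact Nat.zero_le _
    | succ n ih => exact lt_of_le_of_lt ih (hf2 n (n + 1) (Nat.lt_succ_self n)).1
  refine ⟨fun n => (f n).2, fun n => (hf1 n).1, ?_⟩
  rw [hemb.tendsto_nhds_iff, tendsto_pi_nhds]
  intro γ
  have hbd : ∀ N, (∀ n ≥ N, |u (f n).2 γ - u p γ| < 1 / (((f n).1 : ℝ) + 1)) →
      Tendsto (fun n => (u ∘ fun n => (f n).2) n γ) atTop (𝓝 (u p γ)) := by
    intro N hN
    rw [Metric.tendsto_atTop]
    intro ε hε
    obtain ⟨M, hM⟩ := exists_nat_one_div_lt hε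
    refine ⟨max N M, fun n hn => ?_⟩
    rw [Real.dist_eq]
    refine (hN n ((le_max_left _ _).trans hn)).trans (lt_of_le_of_lt ?_ hM)
    apply one_div_le_one_div_of_le (by positivity)
    have h1 : M ≤ (f n).1 := ((le_max_right _ _).trans hn).trans (hk n)
    have h2 : (M : ℝ) ≤ (f n).1 := by exact_mod_cast h1
    linarith
  by_cases h1 : u p γ = 0
  · by_cases h2 : ∃ i, u (f i).2 γ ≠ 0
    · obtain ⟨i, hi⟩ := h2
      obtain ⟨N, hN⟩ := hG _ _ hi
      refine hbd (max N (i + 1)) fun n hn => ?_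
      have h3 : i < n := lt_of_lt_of_le (Nat.lt_succ_self i) ((le_max_right _ _).trans hn)
      exact (hf2 i n h3).2 γ (hN _ (((le_max_left _ _).trans hn).trans (hk n)))
    · push Not at h2
      rw [h1]
      refine tendsto_const_nhds.congr fun n => ?_
      exact (h2 n).symm
  · obtain ⟨N, hN⟩ := hG _ _ h1
    exact hbd N fun n hn => (hf1 n).2 γ (hN _ (hn.trans (hk n)))

/-- A continuous injection of a countably compact space into a compact space with an injective
`c₀`-family is a closed embedding. -/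
theorem closedEmbedding_of_countablyCompact {T P : Type} [TopologicalSpace T]
    [CountablyCompactSpace T] [TopologicalSpace P] [CompactSpace P] [T2Space P] {Γ : Type}
    (u : P → Γ → ℝ) (hu : C0 u) (hinj : Function.Injective u) (j : T → P) (hj : Continuous j)
    (hji : Function.Injective j) : IsClosedEmbedding j := by
  refine IsClosedEmbedding.of_continuous_injective_isClosedMap hj hji ?_
  intro C hC
  rw [← closure_eq_iff_isClosed]
  refine Subset.antisymm ?_ subset_closure
  intro p hp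
  obtain ⟨s, hs1, hs2⟩ := fu u hu hinj _ p hp
  choose c hc1 hc2 using hs1
  obtain ⟨c0, -, hc0⟩ := (CountablyCompactSpace.isCountablyCompact_univ (E := T)).seq_clusterPt c
    (Eventually.of_forall fun n => mem_univ _)
  refine ⟨c0, mapCluster_mem_closed hc0 hC (N := 0) fun n _ => hc1 n, ?_⟩
  have h1 : MapClusterPt (j c0) atTop (j ∘ c) := hc0.continuousAt_comp hj.continuousAt
  have h2 : j ∘ c = s := funext hc2
  rw [h2] at h1
  have h3 : (𝓝 (j c0) ⊓ 𝓝 p).NeBot := h1.clusterPt.neBot.mono (inf_le_inf_left _ hs2)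
  exact eq_of_nhds_neBot h3

/-- closed pointwise bounded sets of functions are compact -/
theorem compact_closure_of_bounded {T : Type*} (B : Set (T → ℝ))
    (hB : ∀ t, ∃ C : ℝ, ∀ b ∈ B, |b t| ≤ C) : IsCompact (closure B) := by
  choose C hC using hB
  have h1 : IsCompact (Set.pi univ fun t => Icc (-C t) (C t)) :=
    isCompact_univ_pi fun t => isCompact_Icc
  refine h1.of_isClosed_subset isClosed_closure (closure_minimal ?_ h1.isClosed)
  intro b hb t _
  exact abs_le.1 (hC t b hb)

/-- **Main theorem.** -/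
theorem main {X : Type} [TopologicalSpace X] (A : ℕ → Set X)
    (hA : ∀ n, ∀ f : X → ℝ, Continuous f → ∃ C : ℝ, ∀ x ∈ A n, |f x| ≤ C)
    (hd : Dense (⋃ n, A n)) (K : Set (X → ℝ)) (hK : ∀ f ∈ K, Continuous f)
    (hcc : IsCountablyCompact K) :
    IsCompact K ∧
      ∃ (Γ : Type) (e : K → (Γ → ℝ)), Topology.IsEmbedding e ∧
        ∀ k : K, ∀ ε : ℝ, 0 < ε → {γ : Γ | ε ≤ |e k γ|}.Finite := by
  classical
  have : CountablyCompactSpace K := isCountablyCompact_iff_countablyCompactSpace.1 hcc
  -- step one: the sets of evaluations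
  let L : ℕ → Set (K → ℝ) := fun n => closure ((fun (x : X) (f : K) => f.1 x) '' A n)
  have hLc : ∀ n, IsCompact (L n) := fun n => by
    apply compact_closure_of_bounded
    intro f
    obtain ⟨C, hC⟩ := hA n f.1 (hK f.1 f.2)
    exact ⟨C, by rintro _ ⟨x, hx, rfl⟩; exact hC x hx⟩
  have hev : ∀ x : X, Continuous fun f : K => f.1 x := fun x =>
    (continuous_apply x).comp continuous_subtype_val
  have hLcont : ∀ n, ∀ g ∈ L n, Continuous g := fun n g hg =>
    av (fun (x : X) (f : K) => f.1 x) hev (fun f => hK f.1 f.2) (A n) (hA n) g hg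
  -- step two: the restrictions of `K`
  have hcomp : ∀ n, CompactSpace (L n) := fun n => isCompact_iff_compactSpace.1 (hLc n)
  let B : (n : ℕ) → Set (L n → ℝ) := fun n => closure (range fun (f : K) (l : L n) => l.1 f)
  have hBc : ∀ n, IsCompact (B n) := fun n => by
    apply compact_closure_of_bounded
    intro l
    obtain ⟨C, hC⟩ := bounded_of_countablyCompact l.1 (hLcont n l.1 l.2)
    exact ⟨C, by rintro _ ⟨f, rfl⟩; exact hC f⟩
  have hBcont : ∀ n, ∀ g ∈ B n, Continuous g := fun n g hg =>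
    av (fun (f : K) (l : L n) => l.1 f)
      (fun f => (continuous_apply f).comp continuous_subtype_val)
      (fun l => hLcont n l.1 l.2) univ
      (fun f hf => by
        obtain ⟨C, hC⟩ := bounded_of_countablyCompact f hf
        exact ⟨C, fun x _ => hC x⟩) g (by rwa [image_univ])
  have hBcomp : ∀ n, CompactSpace (B n) := fun n => isCompact_iff_compactSpace.1 (hBc n)
  -- Amir-Lindenstrauss
  have hAL : ∀ n, ∃ (Γ : Type) (h : B n → Γ → ℝ), C0 h ∧ Function.Injective h := fun n =>
    al (fun (b : B n) (l : L n) => b.1 l)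
      (fun l => (continuous_apply l).comp continuous_subtype_val)
      (fun b => hBcont n b.1 b.2) (fun x y h => Subtype.ext (funext h))
  choose Γ h hC0 hinj using hAL
  let u : (∀ n, B n) → (Σ n, Γ n) → ℝ := fun p q => h q.1 (p q.1) q.2 / ((q.1 : ℝ) + 1)
  have hu : C0 u := C0.sigma (v := fun n (p : ∀ n, B n) => h n (p n)) fun n =>
    ⟨fun γ => ((hC0 n).cont γ).comp (continuous_apply n), fun p γ => (hC0 n).bd (p n) γ,
      fun p ε hε => (hC0 n).fin (p n) ε hε⟩
  have huinj : Function.Injective u := by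
    intro p q hpq
    funext n
    apply hinj n
    funext γ
    have h1 := congrFun hpq ⟨n, γ⟩
    have hp : (0 : ℝ) < (n : ℝ) + 1 := by positivity
    exact (div_left_inj' hp.ne').mp h1
  let j : K → ∀ n, B n := fun f n => ⟨fun l => l.1 f, subset_closure ⟨f, rfl⟩⟩
  have hj : Continuous j := continuous_pi fun n => Continuous.subtype_mk
    (continuous_pi fun l => hLcont n l.1 l.2) _
  have hji : Function.Injective j := by
    intro f g hfg
    apply Subtype.ext
    have h1 : EqOn f.1 g.1 (⋃ n, A n) := by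
      intro x hx
      obtain ⟨n, hn⟩ := mem_iUnion.1 hx
      have h2 := congrArg Subtype.val (congrFun hfg n)
      exact congrFun h2 ⟨fun f => f.1 x, subset_closure ⟨x, hn, rfl⟩⟩
    exact Continuous.ext_on hd (hK _ f.2) (hK _ g.2) h1
  have hjc : IsClosedEmbedding j := closedEmbedding_of_countablyCompact u hu huinj j hj hji
  have hKc : CompactSpace K := hjc.compactSpace
  refine ⟨isCompact_iff_compactSpace.2 hKc, Σ n, Γ n, fun f => u (j f), ?_, ?_⟩
  · have huc : Continuous u := continuous_pi hu.cont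
    exact ((huc.comp hj).isClosedEmbedding (huinj.comp hji)).isEmbedding
  · exact fun k ε hε => hu.fin (j k) ε hε

end Pool.Agent.H855R2
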